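import Pool.Agent.Helper43.Fr.Goals

/-!
# Franel number supercongruences: packet SQRT
-/

namespace Pool.Agent.Helper43.Fr.PkSQRT

open Pool.Agent.Helper43.Fr
open Finset

/-- the coefficients of the square root -/
noncomputable def cf {R : Type*} [CommRing R] (q : ℕ → R) (u : R) : ℕ → R
  | 0 => 1
  | n + 1 => u * (q (n + 1) - ∑ i : Fin n, cf q u (i.1 + 1) * cf q u (n - i.1))
decreasing_by
  all_goals
    have := i.2
    omega

theorem sqrt_aux {R : Type*} [CommRing R] {u : R} (hu : 2 * u = 1) (q : PowerSeries R)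
    (hq : PowerSeries.constantCoeff q = 1) :
    ∃ V : PowerSeries R, V ^ 2 = q ∧ PowerSeries.constantCoeff V = 1 := by
  set c : ℕ → R := cf (fun n => PowerSeries.coeff n q) u with hc
  have h0 : c 0 = 1 := by rw [hc, cf]
  have h1 : ∀ n, c (n + 1) = u * (PowerSeries.coeff (n + 1) q -
      ∑ i : Fin n, c (i.1 + 1) * c (n - i.1)) := by
    intro n
    rw [hc, cf]
  refine ⟨PowerSeries.mk c, ?_, ?_⟩
  · ext n
    rw [pow_two, PowerSeries.coeff_mul, Finset.Nat.sum_antidiagonal_eq_sum_range_succ_mk]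
    simp only [PowerSeries.coeff_mk]
    cases n with
    | zero =>
      simp only [Finset.sum_range_one, Nat.sub_zero]
      rw [h0, ← PowerSeries.coeff_zero_eq_constantCoeff_apply] at *
      rw [hq, mul_one]
    | succ n =>
      rw [Finset.sum_range_succ, Finset.sum_range_succ', Nat.sub_self, h0]
      have h2 : ∑ k ∈ range n, c (k + 1) * c (n + 1 - (k + 1)) =
          ∑ i : Fin n, c (i.1 + 1) * c (n - i.1) := by
        rw [Finset.sum_range]
        refine Finset.sum_congr rfl (fun i _ => ?_)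
        rw [Nat.add_sub_add_right]
      rw [h2]
      simp only [Nat.sub_zero]
      have h3 := h1 n
      set S := ∑ i : Fin n, c (i.1 + 1) * c (n - i.1) with hS
      have h4 : 2 * c (n + 1) = PowerSeries.coeff (n + 1) q - S := by
        rw [h3, ← mul_assoc, hu, one_mul]
      linear_combination h4
  · rw [← PowerSeries.coeff_zero_eq_constantCoeff_apply, PowerSeries.coeff_mk, h0]

theorem sqrt' : G_SQRT := by
  intro p hp h3 q hq
  have h2 : IsUnit (2 : ℤ_[p]) := by
    rw [PadicInt.isUnit_iff]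
    have h := PadicInt.isUnit_iff (p := p) (z := (2 : ℤ_[p]))
    have h5 : ((2 : ℕ) : ℤ_[p]) = 2 := by norm_cast
    have h6 : ‖((2 : ℕ) : ℤ_[p])‖ = 1 := by
      rw [PadicInt.norm_natCast_eq_one_iff]
      exact (Nat.coprime_primes hp.out Nat.prime_two).mpr (by omega)
    rw [← h5]
    exact h6
  obtain ⟨u, hu⟩ := h2.exists_right_inv
  exact sqrt_aux hu q hq

end Pool.Agent.Helper43.Fr.PkSQRT
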